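import Mathlib
import Pool.Graph.R_pool_sql_team_seeded_f0cf7b00.H329R2.AD.Defs
import Pool.Agent.H592.TD.Neg

/-!
# The ternary additive divisor problem: more than 96.9 % of the conjectured main term

For `h ≥ 1` the conjectured leading term of `∑_{n ≤ X} d_3(n) d_3(n+h)` is `SS 3 h / 4 · X (log X)^4`, with the
singular series `SS 3 h = ∑_e c_e(h) Pr(2,e)²`. Lower bounds with the proportion `1737/1792 - o(1)` (`0.9693...`), for
every fixed nonzero shift. (The earlier proportion is `15/16 = 1 - (1 - 3/4)²`, from the divisors up to `X^(1/2)`.)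
New: the pairs of factorisations `n = a b c`, `n + h = u v w`, all of whose members are smaller than `X^(1/2)`, are
counted asymptotically in the range `a (u v)^(3/2) < X`, by means of incomplete Kloosterman sums.
-/

set_option autoImplicit false

open Finset Filter Topology Pool.Agent.H329R2.AD

namespace Pool.Agent.Results.MP_122e00_nt.TernaryProportion

theorem result (h : ℕ) (hh : 1 ≤ h) : 0 < SS 3 h ∧ ∀ c : ℝ, c < 1737 / 1792 →
    (∀ᶠ X : ℕ in atTop, c * (SS 3 h / 4 * X * Real.log X ^ 4) ≤ ∑ n ∈ Icc 1 X, dk 3 n * dk 3 (n + h)) ∧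
    (∀ᶠ X : ℕ in atTop, c * (SS 3 h / 4 * X * Real.log X ^ 4) ≤ ∑ n ∈ Ioc h X, dk 3 n * dk 3 (n - h)) := by
  obtain ⟨h1, h2⟩ := Pool.Agent.H592.TD.main h hh
  exact ⟨h1, fun c hc => ⟨h2 c hc, Pool.Agent.H592.TD.neg_of (SS 3 h / 4) (1737 / 1792) (by positivity) (by norm_num)
    h (dk 3) 4 h2 c hc⟩⟩

end Pool.Agent.Results.MP_122e00_nt.TernaryProportion
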